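import Pool.Agent.C75W.Im

set_option autoImplicit false
noncomputable section
namespace Pool.Agent.Helper86.C75

/-- signed integers for kernel evaluation -/
inductive Z where
  | p : Nat → Z
  | m : Nat → Z

namespace Z
def opp (x : Z) : Z := Z.rec (motive := fun _ => Z) Z.m Z.p x
def subT (a b : Nat) : Z := Z.p (Nat.sub a b)
def subF (a b : Nat) : Z := Z.m (Nat.sub b a)
/-- `a - b` -/
def sub' (a b : Nat) : Z := Bool.rec (motive := fun _ => Nat → Nat → Z) subF subT (Nat.ble b a) a b
def sub'' (b a : Nat) : Z := Bool.rec (motive := fun _ => Nat → Nat → Z) subF subT (Nat.ble b a) a b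
def addPP (a b : Nat) : Z := Z.p (Nat.add a b)
def addMM (a b : Nat) : Z := Z.m (Nat.add a b)
def addP (a : Nat) (y : Z) : Z := Z.rec (motive := fun _ => Nat → Z) addPP sub'' y a
def addM (a : Nat) (y : Z) : Z := Z.rec (motive := fun _ => Nat → Z) sub' addMM y a
def add (x y : Z) : Z := Z.rec (motive := fun _ => Z → Z) addP addM x y
def sub (x y : Z) : Z := add x (opp y)
def mulPP (a b : Nat) : Z := Z.p (Nat.mul a b)
def mulPM (a b : Nat) : Z := Z.m (Nat.mul a b)
def mulP (a : Nat) (y : Z) : Z := Z.rec (motive := fun _ => Nat → Z) mulPP mulPM y a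
def mulM (a : Nat) (y : Z) : Z := Z.rec (motive := fun _ => Nat → Z) mulPM mulPP y a
def mul (x y : Z) : Z := Z.rec (motive := fun _ => Z → Z) mulP mulM x y
def isPosP (a : Nat) : Bool := Nat.ble (nat_lit 1) a
def isPosM (_ : Nat) : Bool := false
def isPos (x : Z) : Bool := Z.rec (motive := fun _ => Bool) isPosP isPosM x
end Z

open Z

/-- Hermitian 3x3: diagonal a b c, off diagonal 01 = (d,e), 02 = (f,g), 12 = (h,i) -/
structure H3 where
  a : Z
  b : Z
  c : Z
  d : Z
  e : Z
  f : Z
  g : Z
  h : Z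
  i : Z

def andB (x y : Bool) : Bool := Bool.rec (motive := fun _ => Bool) false y x

/-- (m22, m23, m33) of a * Schur complement -/
def psd2 (a m22 m33 m23r m23i : Z) : Bool :=
  andB (isPos a) (andB (isPos m22) (isPos (sub (mul m22 m33) (add (mul m23r m23r) (mul m23i m23i)))))

def psd (s : H3) : Bool :=
  psd2 s.a (sub (mul s.a s.b) (add (mul s.d s.d) (mul s.e s.e)))
    (sub (mul s.a s.c) (add (mul s.f s.f) (mul s.g s.g)))
    (sub (mul s.a s.h) (add (mul s.d s.f) (mul s.e s.g)))
    (sub (mul s.a s.i) (sub (mul s.d s.g) (mul s.e s.f)))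

def allB (l : List H3) : Bool :=
  List.rec (motive := fun _ => Bool) true (fun x _ ih => Bool.rec (motive := fun _ => Bool) false ih (psd x)) l

end Pool.Agent.Helper86.C75
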